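import Pool.Agent.X225.Sf.Core

/-!
# 2-sunflowerable structures are sunflowerable

Every infinite 2-sunflowerable structure, in any first-order language and of any cardinality, is
sunflowerable.
-/

universe u v w

namespace Pool.Agent.Results.MP_615e1a_lc.TwoImpliesAll

open FirstOrder FirstOrder.Language CategoryTheory

/-- A set `S` of finite sets is a sunflower: there is a set `r` with `p ∩ q = r` for all distinct `p`, `q`
in `S`. -/
def IsSunflower {V : Type w} (S : Set (Finset V)) : Prop :=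
  ∃ r : Set V, ∀ p ∈ S, ∀ q ∈ S, p ≠ q → (p : Set V) ∩ (q : Set V) = r

/-- `M` is `n`-sunflowerable: for every structure `Y` isomorphic to `M` whose underlying set consists of
`n`-element sets there is a substructure `Z` of `Y` isomorphic to `Y` whose underlying set is a
sunflower. -/
def Sunflowerable (L : FirstOrder.Language.{u, v}) (M : Type w) [L.Structure M] (n : ℕ) : Prop :=
  ∀ (V : Type w) (Y : Set (Finset V)) (_ : L.Structure Y), (∀ y ∈ Y, y.card = n) →
    Nonempty (Y ≃[L] M) → ∃ Z : L.Substructure Y, Nonempty (Z ≃[L] Y) ∧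
      IsSunflower ((fun y : Y => (y : Finset V)) '' (Z : Set Y))

variable {L : FirstOrder.Language.{u, v}} {M : Type w} [L.Structure M]

theorem ci (h : Sunflowerable L M 2) [Infinite M] (T : Type w) (f : M → T) :
    ∃ j : M ↪[L] M, (∀ x y, f (j x) = f (j y)) ∨ Function.Injective (f ∘ j) := by
  classical
  let p : M → Finset (T ⊕ M) := fun m => {Sum.inl (f m), Sum.inr m}
  have hmem : ∀ (m : M) (v : T ⊕ M), v ∈ p m ↔ v = Sum.inl (f m) ∨ v = Sum.inr m := by
    intro m v
    simp [p]
  have hp : Function.Injective p := by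
    intro m m' hmm
    have h1 : (Sum.inr m : T ⊕ M) ∈ p m' := by
      rw [← hmm, hmem]
      exact Or.inr rfl
    rw [hmem] at h1
    simpa using h1
  have hcard : ∀ m, (p m).card = 2 := fun m => Finset.card_pair (by simp)
  let e : M ≃ Set.range p := Equiv.ofInjective p hp
  let _ : L.Structure (Set.range p) := e.inducedStructure
  let e' : M ≃[L] Set.range p := e.inducedStructureEquiv
  have he' : ∀ m, ((e' m : Set.range p) : Finset (T ⊕ M)) = p m := fun m => rfl
  obtain ⟨Z, ⟨θ⟩, r, hr⟩ := h (T ⊕ M) (Set.range p) _ (by rintro _ ⟨m, rfl⟩; exact hcard m)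
    ⟨e'.symm⟩
  let j : M ↪[L] M := e'.symm.toEmbedding.comp
    (Z.subtype.comp (θ.symm.toEmbedding.comp e'.toEmbedding))
  have hj : ∀ x, p (j x) ∈ (fun y : Set.range p => (y : Finset (T ⊕ M))) '' (Z : Set _) := by
    intro x
    refine ⟨Z.subtype (θ.symm (e' x)), (θ.symm (e' x)).2, ?_⟩
    have h1 : e' (j x) = Z.subtype (θ.symm (e' x)) := e'.apply_symm_apply _
    rw [← he', h1]
  have hint : ∀ x y, x ≠ y → (p (j x) : Set (T ⊕ M)) ∩ p (j y) = r := fun x y hxy =>
    hr _ (hj x) _ (hj y) fun he => hxy (j.injective (hp he))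
  refine ⟨j, ?_⟩
  by_cases hex : ∃ x y, x ≠ y ∧ f (j x) = f (j y)
  · left
    obtain ⟨x, y, hxy, hf⟩ := hex
    have h1 : (Sum.inl (f (j x)) : T ⊕ M) ∈ r := by
      rw [← hint x y hxy]
      refine ⟨(hmem _ _).2 (Or.inl rfl), (hmem _ _).2 (Or.inl ?_)⟩
      rw [hf]
    have h2 : ∀ z, f (j z) = f (j x) := by
      intro z
      obtain ⟨w, hw⟩ := exists_ne z
      rw [← hint z w hw.symm] at h1
      have h3 := (hmem _ _).1 h1.1
      rcases h3 with h3 | h3
      · exact (Sum.inl_injective h3).symm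
      · exact absurd h3 (by simp)
    intro z w
    rw [h2 z, h2 w]
  · right
    intro x y hf
    by_contra hxy
    exact hex ⟨x, y, hxy, hf⟩

/-- **Every infinite 2-sunflowerable structure is sunflowerable**, in every language and every
cardinality. -/
theorem result (L : FirstOrder.Language.{u, v}) (M : Type w) [L.Structure M] [Infinite M]
    (h : Sunflowerable L M 2) : ∀ n : ℕ, Sunflowerable L M n := by
  classical
  intro n
  let M' : Bundled.{w} L.Structure := ⟨M, inferInstance⟩
  let K : Set (Bundled.{w} L.Structure) := {M'}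
  have hCI : X225.Sf.CI K := by
    intro B hB
    obtain rfl : B = M' := hB
    exact ⟨M', Set.mem_singleton _, fun T f => ci h T f⟩
  have hCol : X225.Sf.Col K := by
    intro B hB
    obtain rfl : B = M' := hB
    refine ⟨M', Set.mem_singleton _, fun c => ?_⟩
    obtain ⟨j, hj | hj⟩ := ci h (ULift.{w} Bool) (fun m => ULift.up (c m))
    · exact ⟨j, fun x y => congrArg ULift.down (hj x y)⟩
    · exact absurd (Finite.of_injective _ hj) (not_finite_iff_infinite.2 inferInstance)
  obtain ⟨C, hC, hmain⟩ := X225.Sf.main hCI hCol n M' (Set.mem_singleton _)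
  obtain rfl : C = M' := hC
  rintro V Y _ hY ⟨ε⟩
  obtain ⟨j, hj⟩ := hmain V (fun m => ((ε.symm m : Y) : Finset V)) (fun m => hY _ (ε.symm m).2)
  let g : M ↪[L] Y := ε.symm.toEmbedding.comp j
  refine ⟨g.toHom.range, ⟨ε.symm.comp g.equivRange.symm⟩, ?_⟩
  obtain ⟨r, hr⟩ := hj
  refine ⟨r, ?_⟩
  rintro _ ⟨_, ⟨x, rfl⟩, rfl⟩ _ ⟨_, ⟨y, rfl⟩, rfl⟩ hxy
  exact hr _ ⟨x, rfl⟩ _ ⟨y, rfl⟩ hxy

end Pool.Agent.Results.MP_615e1a_lc.TwoImpliesAll
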